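import Pool.Agent.helper87.AU.SpecQ2

/-!
# Module QF10 of project au (MP_97532f_ag): jumps of wild elements of a finite group are congruent modulo 3
-/

namespace Pool.Agent.helper53.AU

open scoped Classical

section

variable {k F : Type} [Field k] [Field F] [Algebra k F]

/-- Products of elements fixing a place fix it. -/
theorem QF10_fix_mul {P : Place k F} {s s' : F ≃ₐ[k] F} (h : s • P = P) (h' : s' • P = P) :
    (s * s') • P = P := by
  rw [mul_smul, h', h]

/-- Inverses of elements fixing a place fix it. -/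
theorem QF10_fix_inv {P : Place k F} {s : F ≃ₐ[k] F} (h : s • P = P) :
    s⁻¹ • P = P := by
  rw [inv_smul_eq_iff, h]

/-- Powers of elements fixing a place fix it. -/
theorem QF10_fix_pow {P : Place k F} {s : F ≃ₐ[k] F} (h : s • P = P) (n : ℕ) :
    (s ^ n) • P = P := by
  induction n with
  | zero => rw [pow_zero, one_smul]
  | succ n ih => rw [pow_succ]; exact QF10_fix_mul ih h

/-- In characteristic 3 equality of casts is congruence modulo 3. -/
theorem QF10_cast (k : Type) [Field k] [CharP k 3] (a b : ℕ) (h : (a : k) = (b : k)) :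
    a % 3 = b % 3 := (CharP.natCast_eq_natCast k 3).1 h

end

theorem QF10 (h8 : QF8_stmt) (h7 : QF7_stmt) (h9 : QF9_stmt) : QF10_stmt := by
  intro k F _ _ _ _ _ hFF G hG P s s' hsG hs'G hs hs' hs1 hs'1 hj hj'
  -- the set of wild elements
  have hfin : ({z : F ≃ₐ[k] F | z ∈ G ∧ z • P = P ∧ z ≠ 1 ∧ 1 ≤ P.jump z} : Set (F ≃ₐ[k] F)).Finite := by
    have : (G : Set (F ≃ₐ[k] F)).Finite := Set.toFinite _
    exact this.subset (fun z hz => hz.1)
  have hne : ({z : F ≃ₐ[k] F | z ∈ G ∧ z • P = P ∧ z ≠ 1 ∧ 1 ≤ P.jump z} : Set (F ≃ₐ[k] F)).Nonempty :=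
    ⟨s, hsG, hs, hs1, hj⟩
  obtain ⟨z, ⟨hzG, hz, hz1, hzj⟩, hmax⟩ := Set.exists_max_image _ (fun z => P.jump z) hfin hne
  -- all jumps are congruent to the jump of `z`
  have key : ∀ t : F ≃ₐ[k] F, t ∈ G → t • P = P → t ≠ 1 → 1 ≤ P.jump t →
      P.jump t % 3 = P.jump z % 3 := by
    intro t htG ht ht1 htj
    apply QF10_cast k
    by_contra hc
    obtain ⟨hne1, hjc⟩ := h8 k F hFF P t z ht hz ht1 hz1 htj hzj hc
    have hmem : t * z * t⁻¹ * z⁻¹ ∈ G :=
      G.mul_mem (G.mul_mem (G.mul_mem htG hzG) (G.inv_mem htG)) (G.inv_mem hzG)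
    have hfix : (t * z * t⁻¹ * z⁻¹) • P = P :=
      QF10_fix_mul (QF10_fix_mul (QF10_fix_mul ht hz) (QF10_fix_inv ht)) (QF10_fix_inv hz)
    have h1 := hmax (t * z * t⁻¹ * z⁻¹) ⟨hmem, hfix, hne1, by omega⟩
    have h2 : P.jump (t * z * t⁻¹ * z⁻¹) ≤ P.jump z := h1
    omega
  have hz3 : z ^ 3 = 1 := by
    rcases (h7 k F hFF P z hz hz1 hzj).1 with h | h
    · exact h
    · by_contra hc
      have h1 := hmax (z ^ 3) ⟨G.pow_mem hzG 3, QF10_fix_pow hz 3, hc, by omega⟩
      have h2 : P.jump (z ^ 3) ≤ P.jump z := h1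
      omega
  have hz0 : P.jump z % 3 ≠ 0 := h9 k F hFF P z hz hz1 hz3
  have e1 := key s hsG hs hs1 hj
  have e2 := key s' hs'G hs' hs'1 hj'
  refine ⟨by rw [e1, e2], by rw [e1]; exact hz0⟩

end Pool.Agent.helper53.AU
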